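import Pool.Agent.H.MP_36ad39.B

set_option autoImplicit false

open Set Filter Topology TopologicalSpace

namespace Pool.Agent.Results.MP_36ad39_gt.Yes
open Pool.Agent.H.MP_36ad39
universe u v

theorem result : ∃ (Z : Type) (_ : TopologicalSpace Z), T3Space Z ∧
    (∃ 𝒩 : ℕ → Set (Set Z), (∀ k, LocallyFinite fun P : 𝒩 k => P.1) ∧
      ∀ K U : Set Z, IsCompact K → IsOpen U → K ⊆ U →
        ∃ F ⊆ ⋃ k, 𝒩 k, F.Finite ∧ K ⊆ ⋃₀ F ∧ ⋃₀ F ⊆ U) ∧
    (∀ K : Set C(Z, ℝ), IsCompact K → Continuous fun p : K × Z => p.1.1 p.2) ∧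
    ¬∃ (X : Type u) (Y : Type v) (_ : TopologicalSpace X) (_ : TopologicalSpace Y),
      MetrizableSpace X ∧ SeparableSpace X ∧ MetrizableSpace Y ∧
        ∃ e : Z → C(X, Y), IsEmbedding e := by
  refine ⟨T, inferInstance, t3, ?_, fun K hK => ascoli hK, ?_⟩
  · obtain ⟨g, hg⟩ := exists_surjective_nat (ℕ ⊕ ℚ × ℚ × ℕ)
    refine ⟨fun k => range fun A => N A (g k), fun k => LocallyFinite.on_range fun x =>
      ⟨_, (fib x.A).2.mem_nhds rfl, (finite_singleton x.A).subset fun A ⟨y, y1, y2⟩ =>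
        (N_sub A _ y1).symm.trans y2⟩, fun K U hK hU h => ?_⟩
    obtain ⟨t, ht⟩ := hK.elim_finite_subcover _ (fun A => (fib A).2)
      fun x _ => mem_iUnion.2 ⟨x.A, rfl⟩
    choose F f1 f2 f3 using fun A => net A (hK.inter_right (fib A).1) inter_subset_right hU
      (inter_subset_left.trans h)
    refine ⟨⋃ A ∈ t, N A '' F A, iUnion₂_subset fun A _ => ?_,
      t.finite_toSet.biUnion fun A _ => (f1 A).image _, fun x hx => ?_, sUnion_subset fun P hP => ?_⟩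
    · rintro _ ⟨j, -, rfl⟩
      obtain ⟨k, rfl⟩ := hg j
      exact mem_iUnion.2 ⟨k, A, rfl⟩
    · obtain ⟨A, a1, a2⟩ := mem_iUnion₂.1 (ht hx)
      obtain ⟨j, j1, j2⟩ := mem_iUnion₂.1 (f2 A ⟨hx, a2⟩)
      exact ⟨_, mem_iUnion₂.2 ⟨A, a1, j, j1, rfl⟩, j2⟩
    · obtain ⟨A, -, j, j1, rfl⟩ := mem_iUnion₂.1 hP
      exact f3 A j j1
  · rintro ⟨X, Y, _, _, _, _, _, e, he⟩
    let := metrizableSpaceMetric X
    let := metrizableSpaceMetric Y
    have : SecondCountableTopology X := UniformSpace.secondCountable_of_separable X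
    choose φ h1 h2 h3 using key e he.isInducing
    exact count φ h1 h2 h3

end Pool.Agent.Results.MP_36ad39_gt.Yes
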